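import Mathlib

/-!
Rooted Eulerian planar maps with prescribed face degrees, as rotation systems.
-/

namespace Pool.Agent.MP_098ecc_co.H26

open Equiv

/-- The number of cycles of a permutation, fixed points included. -/
noncomputable def cyc {X : Type} (p : Perm X) : ℕ :=
  Nat.card (Quotient (Perm.SameCycle.setoid p))

/-- A rooted rotation system with `n` edges. The `2 * n` darts are the oriented edges, `σ` turns
a dart counterclockwise around its origin vertex, `α` reverses a dart, `root` is the root edge. -/
structure RMap (n : ℕ) where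
  σ : Perm (Fin (2 * n))
  α : Perm (Fin (2 * n))
  root : Fin (2 * n)

/-- The face permutation: the cycle of a dart is the boundary of the face to its right. -/
def RMap.φ {n : ℕ} (M : RMap n) : Perm (Fin (2 * n)) := M.σ * M.α

/-- `α` is a fixed point free involution, the graph is connected, and `V - E + F = 2`. -/
def RMap.IsPlanarMap {n : ℕ} (M : RMap n) : Prop :=
  (∀ x, M.α (M.α x) = x) ∧ (∀ x, M.α x ≠ x) ∧
  (∀ x y, Relation.ReflTransGen (fun a b => b = M.σ a ∨ b = M.α a) x y) ∧
  cyc M.σ + cyc M.φ = n + 2

/-- Every vertex has even degree. -/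
def RMap.IsEulerian {n : ℕ} (M : RMap n) : Prop :=
  ∀ x, Even (Function.minimalPeriod M.σ x)

/-- In the proper 2-colouring of the faces in which the face to the right of the root is black,
black faces have degree in `Db` and white faces have degree in `Dw`. -/
def RMap.FaceDegrees {n : ℕ} (M : RMap n) (Db Dw : Set ℕ) : Prop :=
  ∃ black : Fin (2 * n) → Bool,
    black M.root = true ∧ (∀ x, black (M.φ x) = black x) ∧ (∀ x, black (M.α x) = !black x) ∧
    (∀ x, black x = true → Function.minimalPeriod M.φ x ∈ Db) ∧
    (∀ x, black x = false → Function.minimalPeriod M.φ x ∈ Dw)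

/-- The maps that are counted. -/
def RMap.Valid {n : ℕ} (M : RMap n) (Db Dw : Set ℕ) : Prop :=
  M.IsPlanarMap ∧ M.IsEulerian ∧ M.FaceDegrees Db Dw

/-- Isomorphism of rooted maps. -/
def RMap.Iso {n : ℕ} (M M' : RMap n) : Prop :=
  ∃ g : Perm (Fin (2 * n)),
    (∀ x, g (M.σ x) = M'.σ (g x)) ∧ (∀ x, g (M.α x) = M'.α (g x)) ∧ g M.root = M'.root

/-- The number of rooted Eulerian planar maps with `n` edges, black face degrees in `Db` and
white face degrees in `Dw`. -/
noncomputable def numMaps (Db Dw : Set ℕ) (n : ℕ) : ℕ :=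
  Nat.card (Quot fun M M' : {M : RMap n // M.Valid Db Dw} => M.1.Iso M'.1)

/-- The generating function. -/
noncomputable def gf (Db Dw : Set ℕ) : PowerSeries ℚ :=
  PowerSeries.mk fun n => (numMaps Db Dw n : ℚ)

/-- Ultimately periodic sets. -/
def UltPer (D : Set ℕ) : Prop :=
  ∃ p N : ℕ, 0 < p ∧ ∀ d, N ≤ d → (d + p ∈ D ↔ d ∈ D)

end Pool.Agent.MP_098ecc_co.H26
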