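import Pool.Agent.MP_098ecc_co.H26.Spec

/-!
Vanishing, invariance under rotation, and the Tutte equations for the series of boundary words.
-/

namespace Pool.Agent.MP_098ecc_co.H26.Rot

open Finset PowerSeries

section Split

variable {S : Type} [CommRing S]

/-- The sum over all ways of cutting a word at a letter `c`. -/
def spl (f g : List Bool → S) (c : Bool) (l : List Bool) : S :=
  ∑ j ∈ range l.length, if l[j]? = some c then f (l.take j) * g (l.drop (j + 1)) else 0

theorem spl_nil (f g : List Bool → S) (c : Bool) : spl f g c [] = 0 := by simp [spl]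

theorem spl_cons (f g : List Bool → S) (c y : Bool) (u : List Bool) :
    spl f g c (y :: u) =
      (if y = c then f [] * g u else 0) + spl (fun a => f (y :: a)) g c u := by
  unfold spl
  rw [List.length_cons, sum_range_succ', add_comm]
  simp

theorem spl_append (f g : List Bool → S) (c : Bool) (u v : List Bool) :
    spl f g c (u ++ v) = spl f (fun b => g (b ++ v)) c u + spl (fun a => f (u ++ a)) g c v := by
  induction u generalizing f with
  | nil => simp [spl_nil]
  | cons y u ih => simp only [List.cons_append, spl_cons, ih, add_assoc]

theorem spl_add_left (f f' g : List Bool → S) (c : Bool) (l : List Bool) :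
    spl (fun a => f a + f' a) g c l = spl f g c l + spl f' g c l := by
  simp only [spl, ← sum_add_distrib]
  refine sum_congr rfl fun j _ => ?_
  split_ifs <;> ring

theorem spl_add_right (f g g' : List Bool → S) (c : Bool) (l : List Bool) :
    spl f (fun b => g b + g' b) c l = spl f g c l + spl f g' c l := by
  simp only [spl, ← sum_add_distrib]
  refine sum_congr rfl fun j _ => ?_
  split_ifs <;> ring

theorem spl_mul_left (r : S) (f g : List Bool → S) (c : Bool) (l : List Bool) :
    spl (fun a => r * f a) g c l = r * spl f g c l := by
  simp only [spl, mul_sum]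
  refine sum_congr rfl fun j _ => ?_
  split_ifs <;> ring

theorem spl_mul_right (r : S) (f g : List Bool → S) (c : Bool) (l : List Bool) :
    spl f (fun b => r * g b) c l = r * spl f g c l := by
  simp only [spl, mul_sum]
  refine sum_congr rfl fun j _ => ?_
  split_ifs <;> ring

theorem spl_sum_left (D : ℕ) (f : ℕ → List Bool → S) (g : List Bool → S) (c : Bool)
    (l : List Bool) :
    spl (fun a => ∑ d ∈ range D, f d a) g c l = ∑ d ∈ range D, spl (f d) g c l := by
  induction D with
  | zero => simp [spl]
  | succ D ih => simp only [sum_range_succ, spl_add_left, ih]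

theorem spl_sum_right (D : ℕ) (f : List Bool → S) (g : ℕ → List Bool → S) (c : Bool)
    (l : List Bool) :
    spl f (fun b => ∑ d ∈ range D, g d b) c l = ∑ d ∈ range D, spl f (g d) c l := by
  induction D with
  | zero => simp [spl]
  | succ D ih => simp only [sum_range_succ, spl_add_right, ih]

theorem spl_assoc (f g h : List Bool → S) (c c' : Bool) (u : List Bool) :
    spl f (fun b => spl g h c' b) c u = spl (fun a => spl f g c a) h c' u := by
  induction u generalizing f with
  | nil => simp [spl_nil]
  | cons y u ih =>
    rw [spl_cons, spl_cons, ih, spl_nil]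
    simp only [spl_cons, spl_add_left, zero_mul, ite_self, zero_add, add_left_inj]
    split_ifs
    · rw [spl_mul_left]
    · simp [spl]

theorem spl_rep (f g : List Bool → S) (c z : Bool) (d : ℕ) :
    spl f g c (List.replicate d z) = if z = c then
      ∑ i ∈ range d, f (List.replicate i z) * g (List.replicate (d - 1 - i) z) else 0 := by
  unfold spl
  rw [List.length_replicate]
  split_ifs with h
  · refine sum_congr rfl fun j hj => ?_
    have hj' := mem_range.1 hj
    rw [List.getElem?_replicate, if_pos hj', if_pos (by rw [h]), List.take_replicate,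
      List.drop_replicate, min_eq_left hj'.le, show d - (j + 1) = d - 1 - j by omega]
  · refine sum_eq_zero fun j hj => ?_
    rw [List.getElem?_replicate, if_pos (mem_range.1 hj), if_neg (by simpa using h)]

theorem spl_rep_comm (f g : List Bool → S) (c z : Bool) (d : ℕ) :
    spl f g c (List.replicate d z) = spl g f c (List.replicate d z) := by
  rw [spl_rep, spl_rep]
  split_ifs
  · rw [← sum_range_reflect]
    refine sum_congr rfl fun i hi => ?_
    have := mem_range.1 hi
    rw [mul_comm, show d - 1 - (d - 1 - i) = i by omega]
  · rfl

/-- The right side of the recursion, with faces of degree at most `D`. -/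
def Fr (e : Bool → ℕ → S) (D : ℕ) (V : List Bool → S) (x : Bool) (l : List Bool) : S :=
  spl V V (!x) l + ∑ d ∈ range D, e (!x) (d + 1) * V (List.replicate d (!x) ++ l)

theorem Fr_swap (e : Bool → ℕ → S) (D : ℕ) (V : List Bool → S) (t : S)
    (h1 : ∀ x l, V (x :: l) = t * Fr e D V x l) (hr : ∀ u v, V (u ++ v) = V (v ++ u))
    (x y : Bool) (u : List Bool) : Fr e D V y (u ++ [x]) = Fr e D V x (y :: u) := by
  have hx : ∀ l, V (l ++ [x]) = t * Fr e D V x l := fun l => by rw [hr, ← h1]; rfl
  have hy : ∀ d, V (List.replicate d (!x) ++ y :: u) =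
      t * Fr e D V y (u ++ List.replicate d (!x)) := fun d => by rw [hr, ← h1]; rfl
  have e1 : (if x = !y then V (u ++ []) * V [] else 0) = if y = !x then V [] * V u else 0 := by
    cases x <;> cases y <;> simp [mul_comm]
  have e4 : ∑ d ∈ range D, e (!y) (d + 1) *
        spl V (fun b => V (b ++ u)) (!x) (List.replicate d (!y)) =
      ∑ d ∈ range D, e (!x) (d + 1) *
        spl (fun a => V (u ++ a)) V (!y) (List.replicate d (!x)) := by
    by_cases hxy : x = y
    · subst hxy
      refine sum_congr rfl fun d _ => ?_
      rw [spl_rep_comm]
      simp only [hr u]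
    · have h' : ¬ (!y) = !x := by simpa using fun h => hxy h.symm
      have h'' : ¬ (!x) = !y := by simpa using hxy
      simp only [spl_rep, if_neg h', if_neg h'', mul_zero]
  have e5 : ∑ d ∈ range D, e (!y) (d + 1) * ∑ c ∈ range D, e (!x) (c + 1) *
        V (List.replicate c (!x) ++ (List.replicate d (!y) ++ u)) =
      ∑ c ∈ range D, e (!x) (c + 1) * ∑ d ∈ range D, e (!y) (d + 1) *
        V (List.replicate d (!y) ++ (u ++ List.replicate c (!x))) := by
    simp only [mul_sum]
    rw [sum_comm]
    refine sum_congr rfl fun c _ => sum_congr rfl fun d _ => ?_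
    rw [hr (List.replicate c (!x)), List.append_assoc]
    ring
  have e2 : ∀ c b, V (b ++ List.replicate c (!x)) = V (List.replicate c (!x) ++ b) :=
    fun c b => hr _ _
  have L : Fr e D V y (u ++ [x]) = (if y = !x then V [] * V u else 0) +
      t * (spl V (fun b => spl V V (!x) b) (!y) u +
        ∑ c ∈ range D, e (!x) (c + 1) * spl V (fun b => V (List.replicate c (!x) ++ b)) (!y) u +
        ∑ d ∈ range D, e (!y) (d + 1) *
          spl V (fun b => V (b ++ u)) (!x) (List.replicate d (!y)) +
        ∑ d ∈ range D, e (!y) (d + 1) * spl (fun a => V (List.replicate d (!y) ++ a)) V (!x) u +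
        ∑ d ∈ range D, e (!y) (d + 1) * ∑ c ∈ range D, e (!x) (c + 1) *
          V (List.replicate c (!x) ++ (List.replicate d (!y) ++ u))) := by
    rw [Fr, spl_append, spl_cons, spl_nil, e1]
    simp only [← List.append_assoc, hx]
    simp only [Fr, spl_mul_right, spl_add_right, spl_sum_right, spl_append, mul_add,
      sum_add_distrib, mul_sum, List.append_assoc, mul_left_comm _ t]
    ring
  have R : Fr e D V x (y :: u) = (if y = !x then V [] * V u else 0) +
      t * (spl (fun a => spl V V (!y) a) V (!x) u +
        ∑ c ∈ range D, e (!x) (c + 1) * spl V (fun b => V (List.replicate c (!x) ++ b)) (!y) u +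
        ∑ d ∈ range D, e (!x) (d + 1) *
          spl (fun a => V (u ++ a)) V (!y) (List.replicate d (!x)) +
        ∑ d ∈ range D, e (!y) (d + 1) * spl (fun a => V (List.replicate d (!y) ++ a)) V (!x) u +
        ∑ c ∈ range D, e (!x) (c + 1) * ∑ d ∈ range D, e (!y) (d + 1) *
          V (List.replicate d (!y) ++ (u ++ List.replicate c (!x)))) := by
    rw [Fr, spl_cons]
    simp only [hy, h1]
    simp only [Fr, spl_mul_left, spl_add_left, spl_sum_left, spl_append, mul_add,
      sum_add_distrib, mul_sum, e2, mul_left_comm _ t]
    ring
  rw [L, R, spl_assoc, e4, e5]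

theorem map_spl {S' : Type} [CommRing S'] (φ : S →+* S') (f g : List Bool → S) (c : Bool)
    (l : List Bool) : φ (spl f g c l) = spl (fun a => φ (f a)) (fun b => φ (g b)) c l := by
  simp only [spl, map_sum]
  refine sum_congr rfl fun j _ => ?_
  split_ifs <;> simp

theorem map_Fr {S' : Type} [CommRing S'] (φ : S →+* S') (e : Bool → ℕ → S) (D : ℕ)
    (V : List Bool → S) (x : Bool) (l : List Bool) :
    φ (Fr e D V x l) = Fr (fun c d => φ (e c d)) D (fun a => φ (V a)) x l := by
  simp only [Fr, map_add, map_spl, map_sum, map_mul]

end Split

theorem van : VanStmt := by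
  intro R _ e n
  induction n using Nat.strong_induction_on with
  | _ n ih =>
    intro w c hc
    match n, w with
    | _, [] => simp at hc
    | 0, _ :: _ => rw [wc]
    | n + 1, x :: l =>
      rw [wc]
      have hl : n < l.count c := by
        have := List.count_cons (a := c) (b := x) (l := l)
        split_ifs at this <;> omega
      rw [sum_eq_zero, sum_eq_zero, add_zero]
      · intro d _
        rw [ih n (by omega) _ c (by rw [List.count_append]; omega), mul_zero]
      · intro j hj
        split_ifs with h
        · have hj' := mem_range.1 hj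
          have h2 : l = l.take j ++ (!x) :: l.drop (j + 1) := by
            have h3 : l[j] = !x := by
              rw [List.getElem?_eq_getElem hj'] at h
              exact Option.some.inj h
            rw [← h3, ← List.drop_eq_getElem_cons hj', List.take_append_drop]
          have h4 : n + 1 ≤ (l.take j).count c + (l.drop (j + 1)).count c := by
            have h5 : l.count c = (l.take j ++ (!x) :: l.drop (j + 1)).count c := by rw [← h2]
            rw [List.count_append, List.count_cons] at h5
            rw [List.count_cons] at hc
            cases x <;> cases c <;> simp at h5 hc <;> omega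
          refine sum_eq_zero fun m _ => ?_
          have hm := m.2
          by_cases h6 : (m : ℕ) < (l.take j).count c
          · rw [ih m (by omega) _ c h6, zero_mul]
          · rw [ih (n - m) (by omega) _ c (by omega), mul_zero]
        · rfl

variable {R : Type} [CommRing R]

theorem coeff_W (e : Bool → ℕ → R) (w : List Bool) (n : ℕ) : coeff n (W e w) = wc e n w := by
  rw [W, coeff_mk]

theorem W_nil (e : Bool → ℕ → R) : W e [] = 1 := by
  ext n
  rw [coeff_W, coeff_one]
  cases n <;> simp [wc]

theorem wc_succ (e : Bool → ℕ → R) (n : ℕ) (x : Bool) (l : List Bool) :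
    wc e (n + 1) (x :: l) = coeff n (spl (W e) (W e) (!x) l) +
      ∑ d ∈ range (n + 1), e (!x) (d + 1) * wc e n (List.replicate d (!x) ++ l) := by
  rw [wc, spl, map_sum, add_left_inj]
  refine sum_congr rfl fun j _ => ?_
  split_ifs
  · rw [coeff_mul, Nat.sum_antidiagonal_eq_sum_range_succ_mk, ← Fin.sum_univ_eq_sum_range
      (fun m => coeff (m, n - m).1 (W e (l.take j)) * coeff (m, n - m).2 (W e (l.drop (j + 1))))]
    simp only [coeff_W]
  · simp

theorem coeff_Fr (e : Bool → ℕ → R) {D n : ℕ} (h : n < D) (x : Bool) (l : List Bool) :
    coeff n (Fr (fun c d => C (e c d)) D (W e) x l) = wc e (n + 1) (x :: l) := by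
  rw [wc_succ, Fr, map_add, map_sum, add_right_inj]
  simp only [coeff_C_mul, coeff_W]
  refine (sum_subset (range_subset_range.2 h) fun d _ hd => ?_).symm
  rw [van R e n _ (!x), mul_zero]
  rw [List.count_append, List.count_replicate_self]
  rw [mem_range] at hd
  omega

theorem mk_eq_iff (n : ℕ) (f g : R⟦X⟧) :
    Ideal.Quotient.mk (Ideal.span {(X : R⟦X⟧) ^ n}) f =
      Ideal.Quotient.mk (Ideal.span {(X : R⟦X⟧) ^ n}) g ↔ ∀ m < n, coeff m f = coeff m g := by
  rw [Ideal.Quotient.eq, Ideal.mem_span_singleton, X_pow_dvd_iff]
  simp only [map_sub, sub_eq_zero]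

theorem wc_rot (e : Bool → ℕ → R) (n : ℕ) :
    ∀ u v : List Bool, wc e n (u ++ v) = wc e n (v ++ u) := by
  induction n using Nat.strong_induction_on with
  | _ n ih =>
    have key : ∀ (x : Bool) (l : List Bool), wc e n (l ++ [x]) = wc e n (x :: l) := by
      intro x l
      match n, l with
      | _, [] => rfl
      | 0, y :: u => rw [List.cons_append, wc, wc]
      | k + 1, y :: u =>
        set φ := Ideal.Quotient.mk (Ideal.span {(X : R⟦X⟧) ^ (k + 1)}) with hφ
        have h := Fr_swap (fun c d => φ (C (e c d))) (k + 1) (fun a => φ (W e a)) (φ X)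
          (fun x l => by
            rw [← map_Fr φ (fun c d => C (e c d)), ← map_mul, mk_eq_iff]
            intro m hm
            cases m with
            | zero => simp [W, wc]
            | succ m => rw [coeff_succ_X_mul, coeff_Fr e (by omega), coeff_W])
          (fun u v => by
            rw [mk_eq_iff]
            intro m hm
            rw [coeff_W, coeff_W, ih m hm]) x y u
        rw [← map_Fr φ (fun c d => C (e c d)), ← map_Fr φ (fun c d => C (e c d)), mk_eq_iff] at h
        have h' := h k (by omega)
        rwa [coeff_Fr e (by omega), coeff_Fr e (by omega)] at h'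
    intro u
    induction u with
    | nil => simp
    | cons x u ihu =>
      intro v
      rw [List.cons_append, ← key, List.append_assoc, ihu]
      simp

theorem rot : RotStmt := by
  intro R _ e u v
  ext n
  rw [coeff_W, coeff_W, wc_rot]

theorem tutte : TutteStmt := by
  intro R _ e
  refine ⟨W_nil e, fun i j n h => ?_, fun i j n => ?_, fun i j n => ?_⟩
  · rw [coeff_W]
    rcases h with h | h
    · exact van R e n _ true (by simpa [List.count_replicate] using h)
    · exact van R e n _ false (by simpa [List.count_replicate] using h)
  · rw [coeff_W, List.replicate_succ, List.cons_append, wc_succ, spl_append, spl_rep, spl_rep]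
    simp only [Bool.not_true, Bool.true_eq_false, if_false, if_true, zero_add, coeff_W,
      List.replicate_zero, List.nil_append, add_right_inj]
    refine sum_congr rfl fun d _ => ?_
    rw [wc_rot, List.append_assoc, List.replicate_append_replicate]
  · rw [coeff_W, List.replicate_succ', ← List.append_assoc, wc_rot, List.singleton_append, wc_succ,
      spl_append, spl_rep_comm, spl_rep, spl_rep]
    simp only [Bool.not_false, Bool.false_eq_true, if_false, if_true, add_zero, coeff_W,
      List.replicate_zero, List.append_nil, add_right_inj]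
    refine sum_congr rfl fun d _ => ?_
    rw [← List.append_assoc, List.replicate_append_replicate, add_comm d i]

theorem exists_tutte (R : Type) [CommRing R] (eb ew : ℕ → R) : ∃ T, Tutte eb ew T :=
  ⟨_, tutte R fun c => match c with
    | true => eb
    | false => ew⟩

end Pool.Agent.MP_098ecc_co.H26.Rot

namespace Pool.Agent.MP_098ecc_co.H26

open Finset PowerSeries

theorem Tutte.map {R S : Type} [CommRing R] [CommRing S] (f : R →+* S) {eb ew : ℕ → R}
    {T : ℕ → ℕ → R⟦X⟧} (h : Tutte eb ew T) :
    Tutte (fun d => f (eb d)) (fun d => f (ew d)) fun i j => PowerSeries.map f (T i j) := by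
  refine ⟨by rw [h.zero, map_one], fun i j n hn => by rw [coeff_map, h.van i j n hn, map_zero],
    fun i j n => ?_, fun i j n => ?_⟩
  · simp only [← map_mul, ← map_sum, coeff_map, ← map_add, h.t1]
  · simp only [← map_mul, ← map_sum, coeff_map, ← map_add, h.t2]

theorem Tutte.unique {R : Type} [CommRing R] {eb ew : ℕ → R} {T T' : ℕ → ℕ → R⟦X⟧}
    (h : Tutte eb ew T) (h' : Tutte eb ew T') : T = T' := by
  have key : ∀ n i j, coeff n (T i j) = coeff n (T' i j) := by
    intro n
    induction n using Nat.strong_induction_on with
    | _ n ih =>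
      have hm : ∀ k < n, ∀ a b c d, coeff k (T a b * T c d) = coeff k (T' a b * T' c d) := by
        intro k hk a b c d
        rw [coeff_mul, coeff_mul]
        refine sum_congr rfl fun p hp => ?_
        have := mem_antidiagonal.1 hp
        rw [ih p.1 (by omega), ih p.2 (by omega)]
      intro i j
      match n, i, j with
      | _, 0, 0 => rw [h.zero, h'.zero]
      | 0, i + 1, j => rw [h.van _ _ _ (Or.inl (by omega)), h'.van _ _ _ (Or.inl (by omega))]
      | 0, 0, j + 1 => rw [h.van _ _ _ (Or.inr (by omega)), h'.van _ _ _ (Or.inr (by omega))]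
      | n + 1, i + 1, j =>
        rw [h.t1, h'.t1, map_sum, map_sum]
        simp only [hm n (by omega), ih n (by omega)]
      | n + 1, 0, j + 1 =>
        rw [h.t2, h'.t2, map_sum, map_sum]
        simp only [hm n (by omega), ih n (by omega)]
  funext i j
  ext n
  exact key n i j

end Pool.Agent.MP_098ecc_co.H26
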