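import Pool.Agent.MP_098ecc_co.H26.Defs

/-!
Interfaces between the modules. Letters: `true` is a side of a black face, `false` of a white one.
-/

namespace Pool.Agent.MP_098ecc_co.H26

open Finset PowerSeries

/-- `wc e n w`: weighted number of planar gluings with `n` edges and boundary word `w`, defined by
removing the edge at the first letter. An inner face of colour `c` and degree `d` has weight
`e c d`. -/
noncomputable def wc {R : Type} [CommRing R] (e : Bool → ℕ → R) : ℕ → List Bool → R
  | 0, [] => 1
  | 0, _ :: _ => 0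
  | _ + 1, [] => 0
  | n + 1, x :: l =>
      (∑ j ∈ range l.length, if l[j]? = some (!x) then
          ∑ m : Fin (n + 1), wc e m (l.take j) * wc e (n - m) (l.drop (j + 1)) else 0) +
        ∑ d ∈ range (n + 1), e (!x) (d + 1) * wc e n (List.replicate d (!x) ++ l)
  termination_by n => n
  decreasing_by
    all_goals omega

/-- The series of a boundary word. -/
noncomputable def W {R : Type} [CommRing R] (e : Bool → ℕ → R) (w : List Bool) : R⟦X⟧ :=
  PowerSeries.mk fun n => wc e n w

/-- The two Tutte equations for the boundary word with `i` black and then `j` white letters. -/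
structure Tutte {R : Type} [CommRing R] (eb ew : ℕ → R) (T : ℕ → ℕ → R⟦X⟧) : Prop where
  zero : T 0 0 = 1
  van : ∀ i j n, n < i ∨ n < j → coeff n (T i j) = 0
  t1 : ∀ i j n, coeff (n + 1) (T (i + 1) j) =
    coeff n (∑ a ∈ range j, T i a * T 0 (j - 1 - a)) +
      ∑ d ∈ range (n + 1), ew (d + 1) * coeff n (T i (j + d))
  t2 : ∀ i j n, coeff (n + 1) (T i (j + 1)) =
    coeff n (∑ a ∈ range i, T a j * T (i - 1 - a) 0) +
      ∑ d ∈ range (n + 1), eb (d + 1) * coeff n (T (i + d) j)

/-- Vanishing: a word with more than `n` letters of one colour has no gluing with `n` edges. -/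
def VanStmt : Prop :=
  ∀ (R : Type) [CommRing R] (e : Bool → ℕ → R) (n : ℕ) (w : List Bool) (c : Bool),
    n < w.count c → wc e n w = 0

/-- Invariance under rotation of the word. -/
def RotStmt : Prop :=
  ∀ (R : Type) [CommRing R] (e : Bool → ℕ → R) (u v : List Bool), W e (u ++ v) = W e (v ++ u)

/-- The series of the words `true^i false^j` solve the Tutte equations, for all weights. -/
def TutteStmt : Prop :=
  ∀ (R : Type) [CommRing R] (e : Bool → ℕ → R),
    Tutte (e true) (e false) fun i j => W e (List.replicate i true ++ List.replicate j false)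

open Classical in
/-- The 0/1 weights of a pair of degree sets. -/
noncomputable def wt (Db Dw : Set ℕ) : Bool → ℕ → ℚ :=
  fun c d => if d ∈ (if c then Db else Dw) then 1 else 0

/-- The combinatorial theorem. -/
def CountStmt : Prop :=
  ∀ (Db Dw : Set ℕ) (n : ℕ), (numMaps Db Dw n : ℚ) =
    ∑ d ∈ range n, wt Db Dw true (d + 1) * wc (wt Db Dw) n (List.replicate (d + 1) true)

/-- Ultimately periodic sequences. -/
def UltPerSeq {R : Type} (e : ℕ → R) : Prop :=
  ∃ p N : ℕ, 0 < p ∧ ∀ d, N ≤ d → e (d + p) = e d

/-- The algebra of the IF direction. -/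
def IfStmt : Prop :=
  (∀ (R : Type) [CommRing R] (eb ew : ℕ → R), ∃ T, Tutte eb ew T) →
    ∀ (eb ew : ℕ → ℚ) (T : ℕ → ℕ → ℚ⟦X⟧), UltPerSeq eb → UltPerSeq ew → Tutte eb ew T →
      IsAlgebraic (Polynomial ℚ) (T 1 1)

end Pool.Agent.MP_098ecc_co.H26
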